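import Pool.Agent.Y377.IL.Stm

/-! # Families of multiplicative groups (project IL, `S_CE`) -/

set_option autoImplicit false

namespace Pool.Agent.Y297.IL

open Pool.Agent.Y377.EL Pool.Agent.Y377.IL

section ring

variable {K : Type} [Field K]

/-- evaluation at `T = 1` -/
noncomputable def sg : AddMonoidAlgebra K ℤ →ₐ[K] K :=
  AddMonoidAlgebra.lift K K ℤ (1 : Multiplicative ℤ →* K)

theorem sg_apply (f : AddMonoidAlgebra K ℤ) : sg f = ∑ m ∈ f.coeff.support, f.coeff m := by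
  unfold sg
  rw [AddMonoidAlgebra.lift_apply]
  simp [Finsupp.sum]

/-- the powers of the variable -/
noncomputable def pw : Multiplicative ℤ →* RatFunc K where
  toFun m := RatFunc.X ^ (Multiplicative.toAdd m)
  map_one' := by simp
  map_mul' a b := by rw [toAdd_mul, zpow_add₀ RatFunc.X_ne_zero]

/-- Laurent polynomials as rational functions -/
noncomputable def th : AddMonoidAlgebra K ℤ →ₐ[K] RatFunc K :=
  AddMonoidAlgebra.lift K (RatFunc K) ℤ pw

theorem th_apply (f : AddMonoidAlgebra K ℤ) :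
    th f = ∑ m ∈ f.coeff.support, RatFunc.C (f.coeff m) * RatFunc.X ^ m := by
  unfold th
  rw [AddMonoidAlgebra.lift_apply, Finsupp.sum]
  refine Finset.sum_congr rfl fun m _ => ?_
  rw [RatFunc.smul_eq_C_mul]
  rfl

theorem th_poly (f : AddMonoidAlgebra K ℤ) : ∃ (p : Polynomial K) (k : ℕ),
    th f * RatFunc.X ^ k = algebraMap (Polynomial K) (RatFunc K) p ∧
      ∀ m ∈ f.coeff.support, p.coeff (m + k).toNat = f.coeff m := by
  classical
  set k := f.coeff.support.sup Int.natAbs with hk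
  have hk' : ∀ m ∈ f.coeff.support, 0 ≤ m + k := by
    intro m hm
    have h1 : Int.natAbs m ≤ k := Finset.le_sup hm
    omega
  refine ⟨∑ m ∈ f.coeff.support, Polynomial.monomial (m + k).toNat (f.coeff m), k, ?_, ?_⟩
  · rw [th_apply, map_sum, Finset.sum_mul]
    refine Finset.sum_congr rfl fun m hm => ?_
    rw [RatFunc.algebraMap_monomial, mul_assoc]
    congr 1
    rw [← zpow_natCast, ← zpow_natCast, ← zpow_add₀ RatFunc.X_ne_zero,
      Int.toNat_of_nonneg (hk' m hm)]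
  · intro m hm
    rw [Polynomial.finsetSum_coeff, Finset.sum_eq_single m]
    · rw [Polynomial.coeff_monomial, if_pos rfl]
    · intro m' hm' hne
      rw [Polynomial.coeff_monomial, if_neg]
      intro h
      apply hne
      have h1 := hk' m hm
      have h2 := hk' m' hm'
      omega
    · intro h
      exact absurd hm h

theorem th_inj : Function.Injective (th : AddMonoidAlgebra K ℤ → RatFunc K) := by
  rw [injective_iff_map_eq_zero]
  intro f hf
  obtain ⟨p, k, h1, h2⟩ := th_poly f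
  rw [hf, zero_mul] at h1
  have h3 : p = 0 := by
    apply RatFunc.algebraMap_injective K
    rw [← h1, map_zero]
  rw [← AddMonoidAlgebra.coeff_eq_zero]
  ext m
  by_contra h4
  have h5 : m ∈ f.coeff.support := Finsupp.mem_support_iff.2 h4
  rw [← h2 m h5, h3] at h4
  exact h4 rfl

end ring

variable {K : Type} [Field K] [Algebra ℂ K] (δ : Derivation ℂ K K) (S : Subalgebra ℂ K)

/-- the eigenvalue attached to `m` -/
noncomputable def ev (N : ℕ) (m : ℤ) : ℂ := (((m : ℚ) / N : ℚ) : ℂ)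

/-- the eigenvectors in `S` -/
noncomputable def V (N : ℕ) (m : ℤ) : Submodule ℂ K :=
  Subalgebra.toSubmodule S ⊓ (en δ).eigenspace (ev N m)

variable {δ S}

theorem mem_V {N : ℕ} {m : ℤ} {x : K} : x ∈ V δ S N m ↔ x ∈ S ∧ δ x = ev N m • x := by
  unfold V
  rw [Submodule.mem_inf, Subalgebra.mem_toSubmodule, Module.End.mem_eigenspace_iff]
  rfl

theorem ev_add (N : ℕ) (m m' : ℤ) : ev N (m + m') = ev N m + ev N m' := by
  unfold ev
  push_cast
  ring

theorem V_mul {N : ℕ} {m m' : ℤ} {x y : K} (hx : x ∈ V δ S N m) (hy : y ∈ V δ S N m') :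
    x * y ∈ V δ S N (m + m') := by
  rw [mem_V] at hx hy ⊢
  refine ⟨S.mul_mem hx.1 hy.1, ?_⟩
  rw [δ.leibniz, hx.2, hy.2, ev_add]
  simp only [smul_eq_mul, Algebra.smul_def, map_add]
  ring

theorem V_const (N : ℕ) (c : ℂ) : algebraMap ℂ K c ∈ V δ S N 0 := by
  rw [mem_V]
  refine ⟨S.algebraMap_mem c, ?_⟩
  rw [δ.map_algebraMap]
  unfold ev
  simp

variable (δ S)

/-- Laurent polynomials with homogeneous coefficients -/
noncomputable def GG (N : ℕ) : Subalgebra ℂ (AddMonoidAlgebra K ℤ) where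
  carrier := {f | ∀ m, f.coeff m ∈ V δ S N m}
  mul_mem' := by
    classical
    intro f g hf hg m
    rw [AddMonoidAlgebra.coeff_mul, Finsupp.sum]
    refine Submodule.sum_mem _ fun i _ => ?_
    rw [Finsupp.sum]
    refine Submodule.sum_mem _ fun j _ => ?_
    split_ifs with h
    · rw [← h]
      exact V_mul (hf i) (hg j)
    · exact Submodule.zero_mem _
  add_mem' := by
    intro f g hf hg m
    rw [AddMonoidAlgebra.coeff_add, Finsupp.add_apply]
    exact Submodule.add_mem _ (hf m) (hg m)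
  algebraMap_mem' := by
    classical
    intro c m
    have h1 : (algebraMap ℂ (AddMonoidAlgebra K ℤ) c).coeff =
        Finsupp.single 0 (algebraMap ℂ K c) := rfl
    rw [h1, Finsupp.single_apply]
    split_ifs with h
    · rw [← h]
      exact V_const N c
    · exact Submodule.zero_mem _

variable {δ S}

theorem ev_inj {N : ℕ} (hN : 0 < N) : Function.Injective (ev N) := by
  intro m m' h
  unfold ev at h
  have h1 : (m : ℚ) / N = (m' : ℚ) / N := by exact_mod_cast h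
  have h2 : (N : ℚ) ≠ 0 := by exact_mod_cast hN.ne'
  rw [div_left_inj' h2] at h1
  exact_mod_cast h1

theorem sg_inj {N : ℕ} (hN : 0 < N) {f : AddMonoidAlgebra K ℤ} (hf : f ∈ GG δ S N)
    (h : sg f = 0) : f = 0 := by
  have h1 := (Module.End.eigenspaces_iSupIndep (en δ)).comp (ev_inj hN)
  rw [iSupIndep_iff_finsetSum_eq_zero_imp_eq_zero] at h1
  rw [sg_apply] at h
  have h2 := h1 f.coeff.support (fun m => f.coeff m) (fun m _ => (hf m).2) h
  rw [← AddMonoidAlgebra.coeff_eq_zero]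
  ext m
  by_contra h4
  exact h4 (h2 m (Finsupp.mem_support_iff.2 h4))

/-- evaluation at `T = 1` on homogeneous Laurent polynomials -/
noncomputable def sgG (δ : Derivation ℂ K K) (S : Subalgebra ℂ K) (N : ℕ) : GG δ S N →ₐ[ℂ] K :=
  (sg.restrictScalars ℂ).comp (GG δ S N).val

theorem sgG_apply (N : ℕ) (f : GG δ S N) : sgG δ S N f = sg (f : AddMonoidAlgebra K ℤ) := rfl

theorem sgG_inj {N : ℕ} (hN : 0 < N) : Function.Injective (sgG δ S N) := by
  rw [injective_iff_map_eq_zero]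
  intro f hf
  exact Subtype.ext (sg_inj hN f.2 hf)

/-- sums of eigenvectors with eigenvalues of denominator `N` -/
noncomputable def S0 (δ : Derivation ℂ K K) (S : Subalgebra ℂ K) (N : ℕ) : Subalgebra ℂ K :=
  (sgG δ S N).range

theorem mem_S0 {N : ℕ} {x : K} : x ∈ S0 δ S N ↔ ∃ f : GG δ S N, sgG δ S N f = x := Iff.rfl

theorem S0_le (N : ℕ) : S0 δ S N ≤ S := by
  rintro x ⟨f, rfl⟩
  show sg (f : AddMonoidAlgebra K ℤ) ∈ S
  rw [sg_apply]
  exact S.sum_mem fun m _ => (f.2 m).1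

theorem V_le_S0 {N : ℕ} {m : ℤ} {x : K} (hx : x ∈ V δ S N m) : x ∈ S0 δ S N := by
  classical
  refine ⟨⟨AddMonoidAlgebra.single m x, ?_⟩, ?_⟩
  · intro m'
    rw [AddMonoidAlgebra.coeff_single, Finsupp.single_apply]
    split_ifs with h
    · rw [← h]
      exact hx
    · exact Submodule.zero_mem _
  · show sg (AddMonoidAlgebra.single m x) = x
    unfold sg
    rw [AddMonoidAlgebra.lift_single]
    simp

/-- every element of `S` is in `S0` for suitable denominators -/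
theorem exists_den
    (h : ∀ s ∈ S, s ∈ ⨆ q : ℚ, Subalgebra.toSubmodule S ⊓ (en δ).eigenspace (q : ℂ)) {s : K}
    (hs : s ∈ S) : ∃ N0 : ℕ, 0 < N0 ∧ ∀ N, 0 < N → N0 ∣ N → s ∈ S0 δ S N := by
  refine Submodule.iSup_induction (p := fun q : ℚ =>
    Subalgebra.toSubmodule S ⊓ (en δ).eigenspace (q : ℂ))
    (motive := fun s => ∃ N0 : ℕ, 0 < N0 ∧ ∀ N, 0 < N → N0 ∣ N → s ∈ S0 δ S N) (h s hs) ?_ ?_ ?_
  · intro q x hx
    refine ⟨q.den, q.den_pos, ?_⟩
    rintro N hN ⟨c, rfl⟩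
    have hd : (q.den : ℚ) ≠ 0 := by exact_mod_cast q.den_nz
    have hc : (c : ℚ) ≠ 0 := by
      rintro h0
      have : c = 0 := by exact_mod_cast h0
      rw [this, mul_zero] at hN
      exact lt_irrefl _ hN
    apply V_le_S0 (m := q.num * c)
    refine ⟨hx.1, ?_⟩
    have h1 : ev (q.den * c) (q.num * c) = (q : ℂ) := by
      unfold ev
      congr 1
      push_cast
      rw [mul_div_mul_right _ _ hc, Rat.num_div_den]
    rw [h1]
    exact hx.2
  · exact ⟨1, one_pos, fun N _ _ => Subalgebra.zero_mem _⟩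
  · rintro x y ⟨N1, h1, h1'⟩ ⟨N2, h2, h2'⟩
    refine ⟨N1 * N2, Nat.mul_pos h1 h2, fun N hN hd => ?_⟩
    exact Subalgebra.add_mem _ (h1' N hN ((dvd_mul_right _ _).trans hd))
      (h2' N hN ((dvd_mul_left _ _).trans hd))

theorem exists_den_frac
    (h : ∀ s ∈ S, s ∈ ⨆ q : ℚ, Subalgebra.toSubmodule S ⊓ (en δ).eigenspace (q : ℂ)) {x : K}
    (hx : x ∈ frac S) : ∃ N0 : ℕ, 0 < N0 ∧ ∀ N, 0 < N → N0 ∣ N →
      x ∈ frac (S0 δ S N) ∧ (x ∈ S → x ∈ S0 δ S N) := by
  obtain ⟨r, hr, hr0, hrx⟩ := hx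
  obtain ⟨N1, h1, h1'⟩ := exists_den h hr
  obtain ⟨N2, h2, h2'⟩ := exists_den h hrx
  obtain ⟨N3, h3, h3'⟩ : ∃ N3 : ℕ, 0 < N3 ∧ ∀ N, 0 < N → N3 ∣ N → x ∈ S → x ∈ S0 δ S N := by
    by_cases hxS : x ∈ S
    · obtain ⟨N3, h3, h3'⟩ := exists_den h hxS
      exact ⟨N3, h3, fun N hN hd _ => h3' N hN hd⟩
    · exact ⟨1, one_pos, fun N _ _ hx => absurd hx hxS⟩
  refine ⟨N1 * N2 * N3, Nat.mul_pos (Nat.mul_pos h1 h2) h3, fun N hN hd => ⟨⟨r, ?_, hr0, ?_⟩, ?_⟩⟩
  · exact h1' N hN (((dvd_mul_right N1 N2).trans (dvd_mul_right _ _)).trans hd)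
  · exact h2' N hN (((dvd_mul_left N2 N1).trans (dvd_mul_right _ _)).trans hd)
  · exact h3' N hN ((dvd_mul_left _ _).trans hd)

theorem exists_den_fin
    (h : ∀ s ∈ S, s ∈ ⨆ q : ℚ, Subalgebra.toSubmodule S ⊓ (en δ).eigenspace (q : ℂ))
    (t : Finset K) (ht : ∀ x ∈ t, x ∈ frac S) : ∃ N : ℕ, 0 < N ∧ ∀ x ∈ t,
      x ∈ frac (S0 δ S N) ∧ (x ∈ S → x ∈ S0 δ S N) := by
  classical
  have h1 : ∀ x : K, ∃ N0 : ℕ, 0 < N0 ∧ (x ∈ t → ∀ N, 0 < N → N0 ∣ N →
      x ∈ frac (S0 δ S N) ∧ (x ∈ S → x ∈ S0 δ S N)) := by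
    intro x
    by_cases hx : x ∈ t
    · obtain ⟨N0, h0, h0'⟩ := exists_den_frac h (ht x hx)
      exact ⟨N0, h0, fun _ => h0'⟩
    · exact ⟨1, one_pos, fun h => absurd h hx⟩
  choose f hf hf' using h1
  have hp : 0 < ∏ x ∈ t, f x := Finset.prod_pos fun x _ => hf x
  exact ⟨∏ x ∈ t, f x, hp, fun x hx => hf' x hx _ hp (Finset.dvd_prod_of_mem f hx)⟩

/-! ### the fraction field -/

/-- homogeneous Laurent polynomials act on the fraction field -/
@[reducible] noncomputable def algG (δ : Derivation ℂ K K) (S : Subalgebra ℂ K) (N : ℕ) :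
    Algebra (GG δ S N) (frac (S0 δ S N)) :=
  RingHom.toAlgebra
    { toFun := fun f => ⟨sgG δ S N f, le_frac _ ⟨f, rfl⟩⟩
      map_one' := Subtype.ext (map_one _)
      map_mul' := fun f g => Subtype.ext (map_mul _ f g)
      map_zero' := Subtype.ext (map_zero _)
      map_add' := fun f g => Subtype.ext (map_add _ f g) }

theorem exists_phi {N : ℕ} (hN : 0 < N) : ∃ φ : frac (S0 δ S N) →ₐ[ℂ] RatFunc K,
    ∀ (f : AddMonoidAlgebra K ℤ) (hf : f ∈ GG δ S N) (h : sg f ∈ frac (S0 δ S N)),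
      φ ⟨sg f, h⟩ = th f := by
  let _ := algG δ S N
  have hinj : Function.Injective (sgG δ S N) := sgG_inj hN
  have hdom : IsDomain (GG δ S N) := hinj.isDomain (sgG δ S N).toRingHom
  have hfs : FaithfulSMul (GG δ S N) (frac (S0 δ S N)) :=
    (faithfulSMul_iff_algebraMap_injective _ _).mpr fun f g h => hinj (congrArg Subtype.val h)
  have hfr : IsFractionRing (GG δ S N) (frac (S0 δ S N)) := by
    refine IsFractionRing.of_field _ _ ?_
    rintro ⟨x, r, ⟨g, hg⟩, hr0, ⟨f, hf⟩⟩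
    refine ⟨f, g, ?_⟩
    apply Subtype.ext
    show x = (sgG δ S N f) / (sgG δ S N g)
    have hg' : sgG δ S N g = r := hg
    have hf' : sgG δ S N f = r * x := hf
    rw [hg', hf', mul_div_cancel_left₀ _ hr0]
  have htow : IsScalarTower ℂ (GG δ S N) (frac (S0 δ S N)) := by
    refine IsScalarTower.of_algebraMap_eq fun c => ?_
    apply Subtype.ext
    exact ((sgG δ S N).commutes c).symm
  let g : GG δ S N →ₐ[ℂ] RatFunc K := (th.restrictScalars ℂ).comp (GG δ S N).val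
  have hg : Function.Injective g := fun a b h => Subtype.ext (th_inj h)
  refine ⟨IsFractionRing.liftAlgHom hg, fun f hf h => ?_⟩
  exact IsFractionRing.lift_algebraMap hg (⟨f, hf⟩ : GG δ S N)

theorem delta_sg {N : ℕ} {f : AddMonoidAlgebra K ℤ} (hf : f ∈ GG δ S N) {s : Finset ℤ}
    (hs : f.coeff.support ⊆ s) : sg f = ∑ m ∈ s, f.coeff m ∧
      δ (sg f) = ∑ m ∈ s, ev N m • f.coeff m := by
  have h1 : sg f = ∑ m ∈ s, f.coeff m := by
    rw [sg_apply]
    exact Finset.sum_subset hs fun m _ h => Finsupp.notMem_support_iff.1 h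
  refine ⟨h1, ?_⟩
  rw [h1, map_sum]
  exact Finset.sum_congr rfl fun m _ => (mem_V.1 (hf m)).2

theorem t_CE : S_CE := by
  intro K _ _ δ S h t ht
  obtain ⟨N, hN, hN'⟩ := exists_den_fin h t ht
  obtain ⟨φ, hφ⟩ := exists_phi (δ := δ) (S := S) hN
  refine ⟨S0 δ S N, K, inferInstance, inferInstance, φ, S0_le N, fun x hx => (hN' x hx).1,
    fun x hx => (hN' x hx).2, ?_, ?_⟩
  · rintro ⟨x, hx⟩ c hc
    obtain ⟨r, ⟨g, hg⟩, hr0, ⟨f, hf⟩⟩ := hx
    have hg' : sg (g : AddMonoidAlgebra K ℤ) = r := hg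
    have hf' : sg (f : AddMonoidAlgebra K ℤ) = r * x := hf
    have hx' : x ∈ frac (S0 δ S N) := ⟨r, ⟨g, hg⟩, hr0, ⟨f, hf⟩⟩
    have m1 : sg (g : AddMonoidAlgebra K ℤ) ∈ frac (S0 δ S N) := le_frac _ ⟨g, rfl⟩
    have m2 : sg (f : AddMonoidAlgebra K ℤ) ∈ frac (S0 δ S N) := le_frac _ ⟨f, rfl⟩
    have e1 : (⟨sg (f : AddMonoidAlgebra K ℤ), m2⟩ : frac (S0 δ S N)) =
        ⟨sg (g : AddMonoidAlgebra K ℤ), m1⟩ * ⟨x, hx'⟩ := by
      apply Subtype.ext
      show sg (f : AddMonoidAlgebra K ℤ) = sg (g : AddMonoidAlgebra K ℤ) * x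
      rw [hf', hg']
    have e2 : th (f : AddMonoidAlgebra K ℤ) =
        th (g : AddMonoidAlgebra K ℤ) * algebraMap K (RatFunc K) c := by
      have := congrArg φ e1
      rw [map_mul, hφ _ f.2, hφ _ g.2] at this
      rw [this]
      congr 1
    have e3 : (f : AddMonoidAlgebra K ℤ) = c • (g : AddMonoidAlgebra K ℤ) := by
      apply th_inj
      rw [e2, map_smul, Algebra.smul_def, mul_comm]
    have e4 : ∀ m, (f : AddMonoidAlgebra K ℤ).coeff m =
        c * (g : AddMonoidAlgebra K ℤ).coeff m := by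
      intro m
      rw [e3, AddMonoidAlgebra.coeff_smul_apply, smul_eq_mul]
    have hsub : (f : AddMonoidAlgebra K ℤ).coeff.support ⊆
        (g : AddMonoidAlgebra K ℤ).coeff.support := by
      intro m hm
      rw [Finsupp.mem_support_iff] at hm ⊢
      intro h0
      apply hm
      rw [e4, h0, mul_zero]
    obtain ⟨a1, a2⟩ := delta_sg f.2 hsub
    obtain ⟨b1, b2⟩ := delta_sg g.2 (Finset.Subset.refl _)
    have c1 : sg (f : AddMonoidAlgebra K ℤ) = c * sg (g : AddMonoidAlgebra K ℤ) := by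
      rw [a1, b1, Finset.mul_sum]
      exact Finset.sum_congr rfl fun m _ => e4 m
    have c2 : δ (sg (f : AddMonoidAlgebra K ℤ)) = c * δ (sg (g : AddMonoidAlgebra K ℤ)) := by
      rw [a2, b2, Finset.mul_sum]
      refine Finset.sum_congr rfl fun m _ => ?_
      rw [e4 m, Algebra.smul_def, Algebra.smul_def]
      ring
    rw [hf', hg'] at c1 c2
    have hcx : x = c := by
      rw [mul_comm c] at c1
      exact mul_left_cancel₀ hr0 c1
    rw [δ.leibniz, hcx] at c2
    simp only [smul_eq_mul] at c2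
    have c3 : r * δ c = 0 := by linear_combination c2
    show δ x = 0
    rw [hcx]
    exact (mul_eq_zero.1 c3).resolve_left hr0
  · rintro ⟨x, hx⟩ hx0
    obtain ⟨f, hf⟩ := hx0
    have hf' : sg (f : AddMonoidAlgebra K ℤ) = x := hf
    subst hf'
    rw [hφ _ f.2]
    obtain ⟨p, k, h1, _⟩ := th_poly (f : AddMonoidAlgebra K ℤ)
    exact ⟨p, k, h1⟩

end Pool.Agent.Y297.IL
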